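import Pool.Agent.H70.PW.Targets

set_option autoImplicit false

namespace Pool.Agent.H31.PW.CHN

open Finset Pool.Agent.H6.NB Pool.Agent.H70.OQ Pool.Agent.H70.PW

theorem chn (h1 : T_STP) (h2 : T_LDC) : T_CHN := by
  intro X _ _ D J g R hLo hJ hcard hdis hval
  have claim : ∀ j, j < J → ∃ (c : Bool) (b : X → Bool), Tp R j c b ∧
      (2 : ℝ) ^ j / 2 ≤ (if c then g b else -g b) := by
    intro j
    induction j with
    | zero =>
      intro hj
      have hc := hcard 0 hj true
      obtain ⟨x, hx⟩ := card_pos.1 (show 0 < (R 0 true).card by omega)
      set b : X → Bool := fun y => if y = x then false else true with hb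
      have hT : Tp R 0 true b := by
        refine ⟨⟨x, hx, by simp [hb]⟩, ?_⟩
        intro y hy
        have : y = x := by
          by_contra hne
          simp [hb, hne] at hy
        rw [this]
        exact Or.inl hx
      refine ⟨true, b, hT, ?_⟩
      have := hval 0 hj true b hT
      simpa using this
    | succ j ih =>
      intro hj
      obtain ⟨c, b, hT, hv⟩ := ih (by omega)
      set G : (X → Bool) → ℝ := fun b => if c then g b else -g b with hG
      have hGLo : Lo D G := by
        cases c with
        | true =>
          have : G = g := by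
            funext b
            simp [hG]
          rw [this]
          exact hLo
        | false =>
          have : G = fun b => (-1) * g b := by
            funext b
            simp [hG]
          rw [this]
          exact (h2 X).2.2.1 D (-1) g hLo
      have hbT : ∀ x ∈ R (j + 1) (!c), b x = true := by
        intro x hx
        by_contra hne
        rw [Bool.not_eq_true] at hne
        rcases hT.2 x hne with h | ⟨j', hj', c', h⟩
        · have := hdis j (by omega) (j + 1) hj c (!c) x h hx
          omega
        · have := hdis j' (by omega) (j + 1) hj c' (!c) x h hx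
          omega
      have hTp : ∀ I ⊆ R (j + 1) (!c), I.Nonempty → Tp R (j + 1) (!c) (spc b I) := by
        intro I hI hne
        obtain ⟨x, hx⟩ := hne
        refine ⟨⟨x, hI hx, by simp [spc, hx]⟩, ?_⟩
        intro y hy
        by_cases hyI : y ∈ I
        · exact Or.inl (hI hyI)
        · simp only [spc, hyI, if_false] at hy
          right
          rcases hT.2 y hy with h | ⟨j', hj', c', h⟩
          · exact ⟨j, by omega, c, h⟩
          · exact ⟨j', by omega, c', h⟩
      have hflip : ∀ b', (if (!c) = true then g b' else -g b') = -G b' := by
        intro b'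
        cases c <;> simp [hG]
      have hneg : ∀ I ⊆ R (j + 1) (!c), I.Nonempty → G (spc b I) ≤ 0 := by
        intro I hI hne
        have := hval (j + 1) hj (!c) (spc b I) (hTp I hI hne)
        rw [hflip] at this
        linarith
      have hvpos : (0 : ℝ) < 2 ^ j / 2 := by positivity
      obtain ⟨I, hI, hne, hGI⟩ := h1 X D G b (R (j + 1) (!c)) (2 ^ j / 2) hGLo
        (hcard (j + 1) hj (!c)) hbT hvpos hv hneg
      refine ⟨!c, spc b I, hTp I hI hne, ?_⟩
      rw [hflip, pow_succ]
      linarith
  obtain ⟨c, b, hT, hv⟩ := claim (J - 1) (by omega)
  refine ⟨b, ?_, ?_⟩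
  · intro x hx
    rcases hT.2 x hx with h | ⟨j', hj', c', h⟩
    · exact ⟨J - 1, by omega, c, h⟩
    · exact ⟨j', by omega, c', h⟩
  · have hJ2 : (2 : ℝ) ^ J = 2 ^ (J - 1) * 2 := by
      rw [← pow_succ]
      congr 1
      omega
    have h3 : (if c then g b else -g b) ≤ |g b| := by
      cases c
      · simpa using neg_le_abs (g b)
      · simpa using le_abs_self (g b)
    rw [hJ2]
    linarith

end Pool.Agent.H31.PW.CHN
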