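import Pool.Agent.H70.PW.Targets

set_option autoImplicit false

namespace Pool.Agent.H31.PW.STP

open Finset Pool.Agent.H6.NB Pool.Agent.H70.OQ Pool.Agent.H70.PW

theorem stp_ (h1 : T_GRW) (h2 : T_SYP) : T_STP := by
  intro X _ _ D g b0 R v hLo hR hb hv hvg hneg
  obtain ⟨p, hp, hsum⟩ := h2 X D g b0 R hLo hb
  have hspc : spc b0 ∅ = b0 := by
    funext x
    simp [spc]
  have hp0 : p.eval 0 = g b0 := by
    have h := hsum 0 (Nat.zero_le _)
    rw [powersetCard_zero, sum_singleton, hspc, Nat.choose_zero_right] at h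
    simp only [Nat.cast_one, one_mul, Nat.cast_zero] at h
    exact h.symm
  have hpos : ∀ i, i ≤ R.card → (0 : ℝ) < (R.card.choose i : ℝ) := by
    intro i hi
    exact_mod_cast Nat.choose_pos hi
  have hne : ∀ i, 1 ≤ i → ∀ I ∈ powersetCard i R, I ⊆ R ∧ I.Nonempty := by
    intro i hi I hI
    rw [mem_powersetCard] at hI
    refine ⟨hI.1, ?_⟩
    rw [← card_pos, hI.2]
    omega
  have hnp : ∀ i : ℕ, 1 ≤ i → i ≤ R.card → p.eval (i : ℝ) ≤ 0 := by
    intro i hi hil
    have h := hsum i hil
    have h3 : ∑ I ∈ powersetCard i R, g (spc b0 I) ≤ 0 := by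
      apply sum_nonpos
      intro I hI
      exact hneg I (hne i hi I hI).1 (hne i hi I hI).2
    rw [h] at h3
    by_contra hcon
    push Not at hcon
    have := mul_pos (hpos i hil) hcon
    linarith
  obtain ⟨i, hi, hil, hpi⟩ := h1 D R.card p v hp hR hv (by rw [hp0]; exact hvg) hnp
  by_contra hcon
  push Not at hcon
  have h := hsum i hil
  have hlt : ∑ _I ∈ powersetCard i R, (-(2 * v)) < ∑ I ∈ powersetCard i R, g (spc b0 I) := by
    apply sum_lt_sum_of_nonempty
    · rw [powersetCard_nonempty]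
      exact hil
    · intro I hI
      exact hcon I (hne i hi I hI).1 (hne i hi I hI).2
  rw [h, sum_const, card_powersetCard, nsmul_eq_mul] at hlt
  have h4 := mul_le_mul_of_nonneg_left hpi (hpos i hil).le
  linarith

end Pool.Agent.H31.PW.STP
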